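import Pool.Agent.D0H19.SL.Stm

/-!
Project SL (helper19): assembly.
-/

set_option autoImplicit false

open Polynomial

open scoped TensorProduct

namespace Pool.Agent.D0H41.SL

open Pool.Agent.D0H41.SF Pool.Agent.D0H41.SG Pool.Agent.D0H19.SL

open IntermediateField (adjoin)

section

variable (A : ∀ (p : ℕ) [Fact p.Prime], Type) [∀ (p : ℕ) [Fact p.Prime], CommRing (A p)]
  [∀ (p : ℕ) [Fact p.Prime], Algebra ℚ_[p] (A p)]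

/-- the local conditions -/
def Om (r₁ : ℕ) (S : Finset ℕ) (L : IntermediateField ℚ Qb) : Prop :=
  Nat.card (L →+* ℝ) = r₁ ∧
    ∀ (p : ℕ) [Fact p.Prime], p ∈ S → Nonempty (ℚ_[p] ⊗[ℚ] L ≃ₐ[ℚ_[p]] A p)

theorem rich (hFAMG : S_FAMG) (hSN2 : S_SN2) (hREAL : S_REAL) (hEMB : S_EMB) (hCRT : S_CRT)
    (hLOC2 : S_LOC2) (hTEN : S_TEN) (hPRIM : S_PRIM) (n k r₁ : ℕ) (S : Finset ℕ) (h2k : 2 ≤ k)
    (hkn : 2 * k ≤ n) (hr : r₁ ≤ n) (he : Even (n - r₁)) (hS : ∀ p ∈ S, p.Prime)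
    (hA : ∀ (p : ℕ) [Fact p.Prime], p ∈ S → IsReduced (A p) ∧ Module.finrank ℚ_[p] (A p) = n) :
    Rich n k (Om A r₁ S) := by
  classical
  have hn4 : 4 ≤ n := by omega
  obtain ⟨q, hq1, hqp, a0, hsn⟩ := hSN2 n (S.sup id) hn4
  have hloc : ∀ p : ℕ, ∃ (t : ℕ) (b : Fin (n - 1) → ℤ), ∀ h : Fact p.Prime, p ∈ S →
      ∀ a : Fin (n - 1) → ℤ, Cls (p ^ t) b a → Irreducible (polQ n a) → ∀ θ : Qb,
        aeval θ (pol n a) = 0 → Nonempty (ℚ_[p] ⊗[ℚ] (adjoin ℚ {θ}) ≃ₐ[ℚ_[p]] A p) := by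
    intro p
    by_cases hp : p.Prime
    · have : Fact p.Prime := ⟨hp⟩
      by_cases hpS : p ∈ S
      · obtain ⟨hred, hfr⟩ := hA p hpS
        have := hred
        have : Module.Finite ℚ_[p] (A p) := Module.finite_of_finrank_pos (by omega)
        obtain ⟨f, hf1, hf2, hf3, ⟨e⟩⟩ := hPRIM ℚ_[p] (A p)
        obtain ⟨t, b, h⟩ := hLOC2 p n f (by omega) hf1 (hf2.trans hfr) hf3
        refine ⟨t, b, fun _ _ a ha hirr θ hθ => ?_⟩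
        obtain ⟨e1⟩ := h a ha
        obtain ⟨e2⟩ := hTEN n a θ (by omega) hirr hθ p
        exact ⟨(e2.trans e1).trans e⟩
      · exact ⟨0, 0, fun _ h => absurd h hpS⟩
    · exact ⟨0, 0, fun h => absurd h.out hp⟩
  choose t b htb using hloc
  obtain ⟨Q, c, hQ1, hQ⟩ := hCRT n S t b q a0 hS hq1 (fun p hp hpq => by
    have h1 := hqp p (hS p hp) hpq
    have h2 : p ≤ S.sup id := Finset.le_sup (f := id) hp
    omega)
  obtain ⟨C, hC, hfam⟩ := hFAMG n k Q h2k hkn hQ1 c (fun a ha => (hsn a (hQ a ha).1).1)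
  obtain ⟨K, hK, hreal⟩ := hREAL n r₁ hn4 hr he C hC
  obtain ⟨V₀, hV⟩ := hfam K hK
  refine ⟨K + C, by positivity, max V₀ 1, fun V hVV => ?_⟩
  obtain ⟨g, hg1, hg2⟩ := hreal V (le_trans (le_max_right _ _) hVV)
  obtain ⟨A', hA1, hA2⟩ := hV V (le_trans (le_max_left _ _) hVV) g hg1
  refine ⟨A', hA1, fun a ha => ?_⟩
  obtain ⟨ha1, ha2, ha3⟩ := hA2 a ha
  have hirr : Irreducible (polQ n a) := (hsn a (hQ a ha1).1).1
  refine ⟨fun i => ?_, ha3, hirr, fun θ hθ => ⟨(hsn a (hQ a ha1).1).2 θ hθ, ?_, ?_⟩⟩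
  · have h1 : ((a i : ℤ) : ℝ) = ((a i - g i : ℤ) : ℝ) + ((g i : ℤ) : ℝ) := by
      push_cast
      ring
    rw [h1]
    refine (abs_add_le _ _).trans ?_
    have h2 := ha2 i
    have h3 := hg1 i
    linarith
  · rw [hEMB n a θ ℝ (by omega) hirr hθ]
    exact hg2 a ha2
  · intro p hpf hp
    exact htb p hpf hp a ((hQ a ha1).2 p hp) hirr θ hθ

theorem final (hEXPG : S_EXPG) (hFAMG : S_FAMG) (hSN2 : S_SN2) (hREAL : S_REAL)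
    (hEMB : S_EMB) (hCRT : S_CRT) (hLOC2 : S_LOC2) (hTEN : S_TEN) (hPRIM : S_PRIM) :
    ∃ n₀ : ℕ, ∀ n : ℕ, n₀ ≤ n → ∀ r₁ : ℕ, r₁ ≤ n → Even (n - r₁) →
      ∀ S : Finset ℕ, (∀ p ∈ S, p.Prime) →
      ∀ (A : ∀ (p : ℕ) [Fact p.Prime], Type) [∀ (p : ℕ) [Fact p.Prime], CommRing (A p)]
        [∀ (p : ℕ) [Fact p.Prime], Algebra ℚ_[p] (A p)],
      (∀ (p : ℕ) [Fact p.Prime], p ∈ S → IsReduced (A p) ∧ Module.finrank ℚ_[p] (A p) = n) →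
      ∃ X₀ : ℝ, ∀ X : ℝ, X₀ ≤ X → (SymO n (Om A r₁ S) X).Finite ∧
        X ^ ((1 : ℝ) / 2 + 4 / (3 * n) - 16 * (Real.log n) ^ 2 / (n : ℝ) ^ 2) ≤
          ((SymO n (Om A r₁ S) X).ncard : ℝ) := by
  obtain ⟨n₀, hn₀⟩ := hEXPG
  refine ⟨max n₀ 4, fun n hn r₁ hr he S hS A _ _ hA => ?_⟩
  have h1 : n₀ ≤ n := le_trans (le_max_left _ _) hn
  have h2 : 4 ≤ n := le_trans (le_max_right _ _) hn
  exact hn₀ n h1 _ (rich A hFAMG hSN2 hREAL hEMB hCRT hLOC2 hTEN hPRIM n (n / 2) r₁ S (by omega)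
    (by omega) hr he hS hA)

end

end Pool.Agent.D0H41.SL
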